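import Mathlib

set_option autoImplicit false

namespace Pool.Agent.H920Z.Tak

/-- Distance from a real number to the nearest integer. -/
noncomputable def nearInt (t : ℝ) : ℝ := |t - round t|

/-- The class `F_m` of the problem: functions on `[0,1]` (values outside `[0,1]` are never used)
with `f 0 ≤ 0`, `f 1 ≤ 0` and the weakened convexity inequality for `m` points
`0 ≤ x₁ ≤ ... ≤ x_m ≤ 1`. The number of points is written `k + 1`. -/
def InClass (k : ℕ) (f : ℝ → ℝ) : Prop :=
  max (f 0) (f 1) ≤ 0 ∧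
  ∀ x : Fin (k + 1) → ℝ, Monotone x → 0 ≤ x 0 → x (Fin.last k) ≤ 1 →
    f ((∑ i, x i) / (k + 1)) ≤ (∑ i, f (x i)) / (k + 1) + (x (Fin.last k) - x 0)

end Pool.Agent.H920Z.Tak
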