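import Mathlib
import Pool.Agent.H920Z.TakDefs

set_option autoImplicit false

namespace Pool.Agent.H920Z.Tak

lemma nearInt_nonneg (t : ℝ) : 0 ≤ nearInt t := abs_nonneg _

lemma nearInt_le_half (t : ℝ) : nearInt t ≤ 1 / 2 := abs_sub_round t

lemma nearInt_le (t : ℝ) (n : ℤ) : nearInt t ≤ |t - n| := by
  unfold nearInt
  exact round_le t n

lemma nearInt_add_int (t : ℝ) (n : ℤ) : nearInt (t + n) = nearInt t := by
  unfold nearInt
  rw [round_add_intCast]; push_cast; congr 1; ring

lemma nearInt_of_abs_le {t : ℝ} (h : |t| ≤ 1 / 2) : nearInt t = |t| := by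
  apply le_antisymm
  · simpa using nearInt_le t 0
  · unfold nearInt
    by_cases h0 : round t = 0
    · simp [h0]
    · have h1 : (1 : ℝ) ≤ |(round t : ℝ)| := by
        have : (1 : ℤ) ≤ |round t| := Int.one_le_abs h0
        exact_mod_cast this
      have h2 : |(round t : ℝ)| ≤ |t| + |t - round t| := by
        have := abs_sub (t) (t - round t)
        simpa using this
      linarith

lemma nearInt_neg (t : ℝ) : nearInt (-t) = nearInt t := by
  apply le_antisymm
  · have := nearInt_le (-t) (-round t)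
    push_cast at this
    rw [show -t - -(round t : ℝ) = -(t - round t) by ring, abs_neg] at this
    exact this
  · have := nearInt_le t (-round (-t))
    push_cast at this
    rw [show t - -(round (-t) : ℝ) = -(-t - round (-t)) by ring, abs_neg] at this
    exact this

lemma nearInt_unit {t : ℝ} (h0 : 0 ≤ t) (h1 : t ≤ 1) : nearInt t = min t (1 - t) := by
  rcases le_total t (1 / 2) with h | h
  · rw [nearInt_of_abs_le (by rw [abs_of_nonneg h0]; exact h), abs_of_nonneg h0,
      min_eq_left (by linarith)]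
  · have : nearInt t = nearInt (t + ((-1 : ℤ) : ℝ)) := (nearInt_add_int t (-1)).symm
    rw [this, nearInt_of_abs_le (by push_cast; rw [abs_of_nonpos (by linarith)]; linarith)]
    push_cast
    rw [abs_of_nonpos (by linarith), min_eq_right (by linarith)]; ring

/-- every real is `± r + integer` with `r = nearInt`. -/
lemma exists_rep (t : ℝ) : ∃ n : ℤ, t = nearInt t + n ∨ t = -nearInt t + n := by
  refine ⟨round t, ?_⟩
  unfold nearInt
  rcases le_total 0 (t - round t) with h | h
  · left; rw [abs_of_nonneg h]; ring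
  · right; rw [abs_of_nonpos h]; ring

lemma key_unit {u h : ℝ} (hu0 : 0 ≤ u) (hu : u ≤ 1 / 2) (hh0 : 0 ≤ h) (hh : h ≤ 1 / 2) :
    0 ≤ nearInt (u - h) + nearInt (u + h) - 2 * u
      - min (nearInt (2 * u)) (nearInt (2 * h)) + 2 * min u h := by
  rw [nearInt_of_abs_le (t := u - h) (by rw [abs_le]; constructor <;> linarith),
    nearInt_unit (t := u + h) (by linarith) (by linarith),
    nearInt_unit (t := 2 * u) (by linarith) (by linarith),
    nearInt_unit (t := 2 * h) (by linarith) (by linarith)]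
  rcases abs_cases (u - h) with ⟨h1, h2⟩ | ⟨h1, h2⟩ <;> rw [h1] <;>
    simp only [min_def] <;> split_ifs <;> linarith

lemma key (u h : ℝ) :
    0 ≤ nearInt (u - h) + nearInt (u + h) - 2 * nearInt u
      - min (nearInt (2 * u)) (nearInt (2 * h)) + 2 * min (nearInt u) (nearInt h) := by
  have k := key_unit (nearInt_nonneg u) (nearInt_le_half u) (nearInt_nonneg h) (nearInt_le_half h)
  obtain ⟨n, hn⟩ := exists_rep u
  obtain ⟨m, hm⟩ := exists_rep h
  set a := nearInt u with ha
  set b := nearInt h with hb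
  have e2u : nearInt (2 * u) = nearInt (2 * a) := by
    rcases hn with hn | hn
    · rw [hn, show 2 * (a + n) = 2 * a + ((2 * n : ℤ) : ℝ) by push_cast; ring, nearInt_add_int]
    · rw [hn, show 2 * (-a + n) = -(2 * a) + ((2 * n : ℤ) : ℝ) by push_cast; ring,
        nearInt_add_int, nearInt_neg]
  have e2h : nearInt (2 * h) = nearInt (2 * b) := by
    rcases hm with hm | hm
    · rw [hm, show 2 * (b + m) = 2 * b + ((2 * m : ℤ) : ℝ) by push_cast; ring, nearInt_add_int]
    · rw [hm, show 2 * (-b + m) = -(2 * b) + ((2 * m : ℤ) : ℝ) by push_cast; ring,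
        nearInt_add_int, nearInt_neg]
  have es : nearInt (u - h) + nearInt (u + h) = nearInt (a - b) + nearInt (a + b) := by
    rcases hn with hn | hn <;> rcases hm with hm | hm
    · rw [show u - h = (a - b) + ((n - m : ℤ) : ℝ) by push_cast; linarith,
        show u + h = (a + b) + ((n + m : ℤ) : ℝ) by push_cast; linarith,
        nearInt_add_int, nearInt_add_int]
    · rw [show u - h = (a + b) + ((n - m : ℤ) : ℝ) by push_cast; linarith,
        show u + h = (a - b) + ((n + m : ℤ) : ℝ) by push_cast; linarith,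
        nearInt_add_int, nearInt_add_int, add_comm]
    · rw [show u - h = -(a + b) + ((n - m : ℤ) : ℝ) by push_cast; linarith,
        show u + h = -(a - b) + ((n + m : ℤ) : ℝ) by push_cast; linarith,
        nearInt_add_int, nearInt_add_int, nearInt_neg, nearInt_neg, add_comm]
    · rw [show u - h = -(a - b) + ((n - m : ℤ) : ℝ) by push_cast; linarith,
        show u + h = -(a + b) + ((n + m : ℤ) : ℝ) by push_cast; linarith,
        nearInt_add_int, nearInt_add_int, nearInt_neg, nearInt_neg]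
  rw [e2u, e2h]
  linarith

/-- partial sums of the Takagi series -/
noncomputable def tau (n : ℕ) (x : ℝ) : ℝ := ∑ k ∈ Finset.range n, nearInt (2 ^ k * x) / 2 ^ k

lemma tau_succ (n : ℕ) (x : ℝ) : tau (n + 1) x = nearInt x + tau n (2 * x) / 2 := by
  unfold tau
  rw [Finset.sum_range_succ', Finset.sum_div, add_comm]
  simp only [pow_zero, one_mul, div_one]
  congr 1
  refine Finset.sum_congr rfl fun k _ => ?_
  rw [show (2 : ℝ) ^ (k + 1) * x = 2 ^ k * (2 * x) by ring, pow_succ]
  field_simp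

lemma tau_ineq (n : ℕ) : ∀ u h : ℝ,
    0 ≤ tau n (u - h) + tau n (u + h) - 2 * tau n u + 2 * min (nearInt u) (nearInt h) := by
  induction n with
  | zero =>
    intro u h
    have : 0 ≤ min (nearInt u) (nearInt h) := le_min (nearInt_nonneg _) (nearInt_nonneg _)
    simp only [tau, Finset.range_zero, Finset.sum_empty]
    linarith
  | succ n ih =>
    intro u h
    have h1 := ih (2 * u) (2 * h)
    have h2 := key u h
    rw [tau_succ, tau_succ, tau_succ, show 2 * (u - h) = 2 * u - 2 * h by ring,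
      show 2 * (u + h) = 2 * u + 2 * h by ring]
    linarith

lemma tau_mid (n : ℕ) (x y : ℝ) :
    tau n ((x + y) / 2) ≤ (tau n x + tau n y) / 2 + |y - x| / 2 := by
  have h := tau_ineq n ((x + y) / 2) ((y - x) / 2)
  rw [show (x + y) / 2 - (y - x) / 2 = x by ring, show (x + y) / 2 + (y - x) / 2 = y by ring] at h
  have h2 : min (nearInt ((x + y) / 2)) (nearInt ((y - x) / 2)) ≤ |y - x| / 2 := by
    refine (min_le_right _ _).trans ?_
    have := nearInt_le ((y - x) / 2) 0
    simpa [abs_div] using this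
  linarith

/-- partial sums of the base four series -/
noncomputable def om (n : ℕ) (x : ℝ) : ℝ :=
  ∑ k ∈ Finset.range n, (4 : ℝ) / 4 ^ k * min (nearInt (4 ^ k * x)) (1 / 4)

lemma pair (y : ℝ) : nearInt y + nearInt (2 * y) / 2 = 2 * min (nearInt y) (1 / 4) := by
  obtain ⟨n, hn⟩ := exists_rep y
  set a := nearInt y with ha
  have e : nearInt (2 * y) = nearInt (2 * a) := by
    rcases hn with hn | hn
    · rw [hn, show 2 * (a + n) = 2 * a + ((2 * n : ℤ) : ℝ) by push_cast; ring, nearInt_add_int]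
    · rw [hn, show 2 * (-a + n) = -(2 * a) + ((2 * n : ℤ) : ℝ) by push_cast; ring,
        nearInt_add_int, nearInt_neg]
  have h0 : 0 ≤ a := nearInt_nonneg y
  have h1 : a ≤ 1 / 2 := nearInt_le_half y
  rw [e, nearInt_unit (by linarith) (by linarith)]
  simp only [min_def]; split_ifs <;> linarith

lemma om_eq (n : ℕ) (x : ℝ) : om n x = 2 * tau (2 * n) x := by
  induction n with
  | zero => simp [om, tau]
  | succ n ih =>
    unfold om tau at *
    rw [Finset.sum_range_succ, ih, show 2 * (n + 1) = 2 * n + 1 + 1 by ring,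
      Finset.sum_range_succ, Finset.sum_range_succ]
    have hp := pair (4 ^ n * x)
    have e1 : (2 : ℝ) ^ (2 * n) = 4 ^ n := by rw [pow_mul]; norm_num
    have e2 : (2 : ℝ) ^ (2 * n + 1) * x = 2 * (4 ^ n * x) := by rw [pow_succ, e1]; ring
    rw [e2, pow_succ, e1]
    have : (4 : ℝ) / 4 ^ n * min (nearInt (4 ^ n * x)) (1 / 4)
        = 2 / 4 ^ n * (2 * min (nearInt (4 ^ n * x)) (1 / 4)) := by ring
    rw [this, ← hp]
    generalize (∑ k ∈ Finset.range (2 * n), nearInt (2 ^ k * x) / 2 ^ k) = S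
    field_simp
    ring

lemma summ (x : ℝ) : Summable fun k : ℕ => (4 : ℝ) / 4 ^ k * min (nearInt (4 ^ k * x)) (1 / 4) := by
  refine Summable.of_nonneg_of_le (fun k => ?_) (fun k => ?_)
    (summable_geometric_of_lt_one (r := (1 / 4 : ℝ)) (by norm_num) (by norm_num))
  · exact mul_nonneg (by positivity) (le_min (nearInt_nonneg _) (by norm_num))
  · have h := min_le_right (nearInt (4 ^ k * x)) (1 / 4)
    calc (4 : ℝ) / 4 ^ k * min (nearInt (4 ^ k * x)) (1 / 4) ≤ 4 / 4 ^ k * (1 / 4) :=
          mul_le_mul_of_nonneg_left h (by positivity)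
      _ = (1 / 4) ^ k := by rw [one_div_pow]; field_simp

/-- the limit function -/
noncomputable def W (x : ℝ) : ℝ := ∑' k : ℕ, (4 : ℝ) / 4 ^ k * min (nearInt (4 ^ k * x)) (1 / 4)

lemma tendsto_om (x : ℝ) : Filter.Tendsto (fun n => om n x) Filter.atTop (nhds (W x)) :=
  (summ x).hasSum.tendsto_sum_nat

lemma W_mid (x y : ℝ) : W ((x + y) / 2) ≤ (W x + W y) / 2 + |y - x| := by
  refine le_of_tendsto_of_tendsto' (tendsto_om _)
    ((((tendsto_om x).add (tendsto_om y)).div_const 2).add_const |y - x|) fun n => ?_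
  have := tau_mid (2 * n) x y
  simp only [om_eq]
  linarith

lemma W_int (n : ℤ) : W n = 0 := by
  unfold W
  have : ∀ k : ℕ, nearInt (4 ^ k * (n : ℝ)) = 0 := by
    intro k
    have := nearInt_add_int 0 (4 ^ k * n)
    push_cast at this
    rw [zero_add] at this
    rw [this]; simp [nearInt]
  simp [this]

lemma W_le (x : ℝ) : W x ≤ 2 := by
  refine le_of_tendsto' (tendsto_om x) fun n => ?_
  rw [om_eq]
  have : ∀ m : ℕ, ∀ y : ℝ, tau m y ≤ 1 := by
    intro m
    induction m with
    | zero => intro y; simp [tau]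
    | succ m ih =>
      intro y
      rw [tau_succ]
      have := ih (2 * y)
      have := nearInt_le_half y
      linarith
  have := this (2 * n) x
  linarith

lemma W_inClass : InClass 3 W := by
  refine ⟨?_, fun x hx h0 h1 => ?_⟩
  · have a := W_int 0
    have b := W_int 1
    push_cast at a b
    rw [a, b]; simp
  · have h01 : x 0 ≤ x 1 := hx (by decide)
    have h12 : x 1 ≤ x 2 := hx (by decide)
    have h23 : x 2 ≤ x 3 := hx (by decide)
    have hl : Fin.last 3 = (3 : Fin 4) := rfl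
    rw [hl] at *
    rw [show (∑ i, x i) = x 0 + x 1 + x 2 + x 3 from Fin.sum_univ_four x,
      show (∑ i, W (x i)) = W (x 0) + W (x 1) + W (x 2) + W (x 3) from
        Fin.sum_univ_four (fun i => W (x i))]
    have a := W_mid ((x 0 + x 3) / 2) ((x 1 + x 2) / 2)
    have b := W_mid (x 0) (x 3)
    have c := W_mid (x 1) (x 2)
    rw [abs_of_nonneg (by linarith)] at b c
    have e : (x 0 + x 1 + x 2 + x 3) / (((3 : ℕ) : ℝ) + 1)
        = ((x 0 + x 3) / 2 + (x 1 + x 2) / 2) / 2 := by push_cast; ring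
    rw [e]
    have d : |(x 1 + x 2) / 2 - (x 0 + x 3) / 2| ≤ (x 3 - x 0) / 2 - (x 2 - x 1) / 2 := by
      rw [abs_le]; constructor <;> linarith
    push_cast
    linarith

lemma class_mid {f : ℝ → ℝ} (hf : InClass 3 f) {a b : ℝ} (h0 : 0 ≤ a) (hab : a ≤ b) (h1 : b ≤ 1) :
    f ((a + b) / 2) ≤ (f a + f b) / 2 + (b - a) := by
  have h := hf.2 ![a, a, b, b] (by
    refine Fin.monotone_iff_le_succ.2 fun i => ?_
    fin_cases i <;> simp [hab]) (by simpa using h0) (by simpa [Fin.last] using h1)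
  rw [show (∑ i, (![a, a, b, b] : Fin 4 → ℝ) i) = a + a + b + b from Fin.sum_univ_four _,
    show (∑ i, f ((![a, a, b, b] : Fin 4 → ℝ) i)) = f a + f a + f b + f b from
      Fin.sum_univ_four (fun i => f ((![a, a, b, b] : Fin 4 → ℝ) i)),
    show (![a, a, b, b] : Fin 4 → ℝ) (Fin.last 3) = b from rfl,
    show (![a, a, b, b] : Fin 4 → ℝ) 0 = a from rfl,
    show (a + a + b + b) / (((3 : ℕ) : ℝ) + 1) = (a + b) / 2 by push_cast; ring] at h
  push_cast at h
  linarith

lemma tau_add_int (n : ℕ) (x : ℝ) (m : ℤ) : tau n (x + m) = tau n x := by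
  unfold tau
  refine Finset.sum_congr rfl fun k _ => ?_
  rw [show (2 : ℝ) ^ k * (x + m) = 2 ^ k * x + ((2 ^ k * m : ℤ) : ℝ) by push_cast; ring,
    nearInt_add_int]

lemma upper_aux {f : ℝ → ℝ} (hf : InClass 3 f) {M : ℝ} (hM : ∀ x ∈ Set.Icc (0 : ℝ) 1, f x ≤ M)
    (n : ℕ) : ∀ x ∈ Set.Icc (0 : ℝ) 1, f x ≤ 2 * tau n x + M / 2 ^ n := by
  have hf0 : f 0 ≤ 0 := (le_max_left _ _).trans hf.1
  have hf1 : f 1 ≤ 0 := (le_max_right _ _).trans hf.1
  induction n with
  | zero => intro x hx; simpa [tau] using hM x hx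
  | succ n ih =>
    intro x ⟨hx0, hx1⟩
    rw [tau_succ, nearInt_unit hx0 hx1]
    have eM : M / 2 ^ (n + 1) = M / 2 ^ n / 2 := by rw [pow_succ]; field_simp
    rw [eM]
    rcases le_total x (1 / 2) with h | h
    · have a := class_mid hf (a := 0) (b := 2 * x) le_rfl (by linarith) (by linarith)
      have b := ih (2 * x) ⟨by linarith, by linarith⟩
      rw [show (0 + 2 * x) / 2 = x by ring] at a
      rw [min_eq_left (by linarith)]
      linarith
    · have a := class_mid hf (a := 2 * x - 1) (b := 1) (by linarith) (by linarith) le_rfl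
      have b := ih (2 * x - 1) ⟨by linarith, by linarith⟩
      rw [show (2 * x - 1 + 1) / 2 = x by ring] at a
      have c := tau_add_int n (2 * x) (-1)
      push_cast at c
      rw [show 2 * x + -1 = 2 * x - 1 by ring] at c
      rw [min_eq_right (by linarith), ← c]
      linarith

lemma upper {f : ℝ → ℝ} (hf : InClass 3 f) {M : ℝ} (hM : ∀ x ∈ Set.Icc (0 : ℝ) 1, f x ≤ M)
    {x : ℝ} (hx : x ∈ Set.Icc (0 : ℝ) 1) : f x ≤ W x := by
  have t : Filter.Tendsto (fun n : ℕ => om n x + M * (1 / 4) ^ n) Filter.atTop (nhds (W x + M * 0)) :=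
    (tendsto_om x).add
      ((tendsto_pow_atTop_nhds_zero_of_lt_one (r := (1 / 4 : ℝ)) (by norm_num) (by norm_num)).const_mul M)
  rw [mul_zero, add_zero] at t
  refine ge_of_tendsto' t fun n => ?_
  have := upper_aux hf hM (2 * n) x hx
  rw [om_eq]
  have e1 : (2 : ℝ) ^ (2 * n) = 4 ^ n := by rw [pow_mul]; norm_num
  rw [e1] at this
  rw [one_div_pow, mul_one_div]
  exact this

theorem main (x : ℝ) (hx : x ∈ Set.Icc (0 : ℝ) 1) :
    IsGreatest {y : ℝ | ∃ f : ℝ → ℝ, InClass 3 f ∧ BddAbove (f '' Set.Icc 0 1) ∧ f x = y}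
      (∑' k : ℕ, (4 : ℝ) / 4 ^ k * min (nearInt (4 ^ k * x)) (1 / 4)) := by
  refine ⟨⟨W, W_inClass, ⟨2, ?_⟩, rfl⟩, ?_⟩
  · rintro _ ⟨z, _, rfl⟩; exact W_le z
  · rintro _ ⟨f, hf, ⟨M, hM⟩, rfl⟩
    exact upper hf (fun z hz => hM ⟨z, hz, rfl⟩) hx

end Pool.Agent.H920Z.Tak
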